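import Pool.Agent.N594.CT.Stm

/-!
# Few vertices of small degree
-/

set_option autoImplicit false

open Finset
open scoped Classical

namespace Pool.Agent.N945.CT.REG

open Pool.Agent.N594.CT

theorem one_sub_pow {β : ℝ} (h0 : 0 ≤ β) (h1 : β ≤ 1) (t : ℕ) :
    (1 - β) ^ t ≤ 1 - t * β + (t * β) ^ 2 / 2 := by
  induction t with
  | zero => simp
  | succ t ih =>
    have h2 : (1 - β) ^ (t + 1) ≤ (1 - t * β + (t * β) ^ 2 / 2) * (1 - β) := by
      rw [pow_succ]
      exact mul_le_mul_of_nonneg_right ih (by linarith)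
    refine h2.trans ?_
    push_cast
    have h3 : 0 ≤ (t : ℝ) ^ 2 * β ^ 3 := by positivity
    have h4 : 0 ≤ β ^ 2 := by positivity
    nlinarith [h3, h4]

theorem image_insertNth {V : Type} {l : ℕ} (i : Fin (l + 1)) (w : V) (y : Fin l → V) :
    univ.image (i.insertNth w y : Fin (l + 1) → V) = insert w (univ.image y) := by
  ext v
  simp only [mem_image, mem_univ, true_and, mem_insert]
  rw [Fin.exists_iff_succAbove i]
  simp only [Fin.insertNth_apply_same, Fin.insertNth_apply_succAbove]
  constructor
  · rintro (h | h)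
    · exact Or.inl h.symm
    · exact Or.inr h
  · rintro (h | h)
    · exact Or.inl h.symm
    · exact Or.inr h

theorem count {V : Type} [Fintype V] (H : Finset V → Prop) (l : ℕ) (B : Finset V)
    (i : Fin (l + 1)) :
    (univ.filter fun x : Fin (l + 1) → V => x i ∈ B ∧ H (univ.image x)).card =
      ∑ w ∈ B, (univ.filter fun y : Fin l → V => H (insert w (univ.image y))).card := by
  have h1 : (univ.filter fun x : Fin (l + 1) → V => x i ∈ B ∧ H (univ.image x)).card =
      (B.sigma fun w => univ.filter fun y : Fin l → V => H (insert w (univ.image y))).card := by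
    refine Finset.card_bij' (fun x _ => ⟨x i, fun j => x (i.succAbove j)⟩)
      (fun p _ => i.insertNth p.1 p.2) ?_ ?_ ?_ ?_
    · intro x hx
      obtain ⟨-, h2, h3⟩ := mem_filter.1 hx
      refine mem_sigma.2 ⟨h2, mem_filter.2 ⟨mem_univ _, ?_⟩⟩
      rw [← image_insertNth i]
      have h4 : (i.insertNth (x i) (fun j => x (i.succAbove j)) : Fin (l + 1) → V) = x :=
        Fin.insertNth_self_removeNth i x
      rw [h4]
      exact h3
    · intro p hp
      obtain ⟨h2, h3⟩ := mem_sigma.1 hp
      refine mem_filter.2 ⟨mem_univ _, ?_, ?_⟩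
      · rw [Fin.insertNth_apply_same]
        exact h2
      · rw [image_insertNth]
        exact (mem_filter.1 h3).2
    · intro x _
      exact Fin.insertNth_self_removeNth i x
    · intro p _
      refine Sigma.ext ?_ ?_
      · simp
      · simp
  rw [h1, card_sigma]

theorem main : S_REG := by
  intro V _ _ H l Λ ε hε hε1 hΛ hn hW hden
  by_contra hcon
  push Not at hcon
  set n : ℝ := (Fintype.card V : ℝ) with hndef
  have hn0 : 0 < n := by
    rw [hndef]
    exact_mod_cast Fintype.card_pos
  set Bad : Finset V := univ.filter fun w : V => dg l H w ≤ Λ - ε with hBad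
  set t : ℝ := (l : ℝ) + 1 with ht
  have ht1 : 1 ≤ t := by
    rw [ht]
    have : (0 : ℝ) ≤ l := Nat.cast_nonneg l
    linarith
  set b : ℕ := ⌊ε * n / t⌋₊ with hb
  have hb1 : (b : ℝ) ≤ ε * n / t := Nat.floor_le (by positivity)
  have hb2 : ε * n / t - 1 < b := Nat.sub_one_lt_floor _
  have hb3 : ε * n / t ≤ ε * n := div_le_self (by positivity) ht1
  have hbB : b < Bad.card := by
    have : (b : ℝ) < Bad.card := by linarith
    exact_mod_cast this
  obtain ⟨B, hBs, hBc⟩ := Finset.exists_subset_card_eq hbB.le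
  have hBadn : Bad.card ≤ Fintype.card V := card_le_univ _
  have hBadne : 0 < Bad.card := by omega
  obtain ⟨w0, hw0⟩ := card_pos.1 hBadne
  have hΛε : ε ≤ Λ := by
    have h1 := (mem_filter.1 hw0).2
    have h2 : 0 ≤ dg l H w0 := by
      unfold dg
      positivity
    linarith
  have hWc : (univ \ B).card = Fintype.card V - b := by
    rw [card_sdiff_of_subset (subset_univ _), card_univ, hBc]
  have hWne : (univ \ B).Nonempty := by
    rw [← card_pos, hWc]
    omega
  have h1 := hW _ hWne
  have hWr : ((univ \ B).card : ℝ) = n - b := by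
    rw [hWc, Nat.cast_sub (by omega)]
  rw [hWr] at h1
  -- counting
  have hE : (E (l + 1) H : ℝ) ≤ Λ * (n - b) ^ (l + 1) + t * (b * ((Λ - ε) * n ^ l)) := by
    have h2 : E (l + 1) H ≤
        (univ.filter fun x : Fin (l + 1) → V => (∀ i, x i ∈ univ \ B) ∧ H (univ.image x)).card +
        ∑ i : Fin (l + 1),
          (univ.filter fun x : Fin (l + 1) → V => x i ∈ B ∧ H (univ.image x)).card := by
      unfold E
      refine (card_le_card (t := (univ.filter fun x : Fin (l + 1) → V =>
        (∀ i, x i ∈ univ \ B) ∧ H (univ.image x)) ∪ (univ : Finset (Fin (l + 1))).biUnion fun i =>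
          (univ.filter fun x : Fin (l + 1) → V => x i ∈ B ∧ H (univ.image x))) ?_).trans
        ((card_union_le _ _).trans (Nat.add_le_add_left card_biUnion_le _))
      intro x hx
      have hx1 := (mem_filter.1 hx).2
      rw [mem_union]
      by_cases h : ∀ i, x i ∈ univ \ B
      · exact Or.inl (mem_filter.2 ⟨mem_univ _, h, hx1⟩)
      · push Not at h
        obtain ⟨i, hi⟩ := h
        refine Or.inr (mem_biUnion.2 ⟨i, mem_univ _, mem_filter.2 ⟨mem_univ _, ?_, hx1⟩⟩)
        by_contra hc
        exact hi (mem_sdiff.2 ⟨mem_univ _, hc⟩)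
    have h3 : ∀ i : Fin (l + 1),
        ((univ.filter fun x : Fin (l + 1) → V => x i ∈ B ∧ H (univ.image x)).card : ℝ) ≤
          b * ((Λ - ε) * n ^ l) := by
      intro i
      rw [count]
      push_cast
      have h4 : ∀ w ∈ B,
          ((univ.filter fun y : Fin l → V => H (insert w (univ.image y))).card : ℝ) ≤
            (Λ - ε) * n ^ l := by
        intro w hw
        have h5 := (mem_filter.1 (hBs hw)).2
        unfold dg at h5
        rwa [div_le_iff₀ (by positivity)] at h5
      refine (sum_le_sum h4).trans ?_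
      rw [sum_const, hBc, nsmul_eq_mul]
    have h6 : (E (l + 1) H : ℝ) ≤
        ((univ.filter fun x : Fin (l + 1) → V => (∀ i, x i ∈ univ \ B) ∧ H (univ.image x)).card : ℝ) +
        ∑ i : Fin (l + 1),
          ((univ.filter fun x : Fin (l + 1) → V => x i ∈ B ∧ H (univ.image x)).card : ℝ) := by
      exact_mod_cast h2
    refine h6.trans (add_le_add h1 ?_)
    refine (sum_le_sum fun i _ => h3 i).trans ?_
    rw [sum_const, card_univ, Fintype.card_fin, nsmul_eq_mul, ht]
    push_cast
    exact le_refl _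
  -- the density
  set β : ℝ := (b : ℝ) / n with hβ
  have hβ0 : 0 ≤ β := by positivity
  have hbn : (b : ℝ) = β * n := by
    rw [hβ]
    field_simp
  have htβ : t * β ≤ ε := by
    rw [hβ, ← mul_div_assoc, div_le_iff₀ hn0]
    have := (le_div_iff₀ (by linarith : (0 : ℝ) < t)).1 hb1
    linarith
  have htβ2 : ε / 2 ≤ t * β := by
    have h7 : 1 ≤ ε * n / (2 * t) := by
      rw [le_div_iff₀ (by positivity)]
      have := (div_le_iff₀ hε).1 hn
      rw [ht]
      linarith
    have h8 : ε * n / t = 2 * (ε * n / (2 * t)) := by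
      field_simp
    have h9 : ε * n / (2 * t) ≤ b := by linarith
    have h10 := (div_le_iff₀ (by positivity : (0 : ℝ) < 2 * t)).1 h9
    rw [hbn] at h10
    have h11 : ε * n ≤ (2 * (t * β)) * n := by linarith
    have := le_of_mul_le_mul_right h11 hn0
    linarith
  have hβ1 : β ≤ 1 := by
    have : β ≤ t * β := by
      nlinarith
    linarith
  have hd : den (l + 1) H ≤ Λ * (1 - β) ^ (l + 1) + t * β * (Λ - ε) := by
    unfold den
    rw [← hndef, div_le_iff₀ (by positivity)]
    refine hE.trans (le_of_eq ?_)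
    rw [hbn]
    have : n - β * n = (1 - β) * n := by ring
    rw [this, mul_pow]
    ring
  have hp := one_sub_pow hβ0 hβ1 (l + 1)
  have hcast : ((l + 1 : ℕ) : ℝ) = t := by
    rw [ht]
    push_cast
    ring
  rw [hcast] at hp
  have hΛ0 : 0 ≤ Λ := by linarith
  have h12 : Λ * (1 - β) ^ (l + 1) ≤ Λ * (1 - t * β + (t * β) ^ 2 / 2) :=
    mul_le_mul_of_nonneg_left hp hΛ0
  have h13 : Λ * ((t * β) ^ 2 / 2) ≤ (t * β) ^ 2 / 2 :=
    mul_le_of_le_one_left (by positivity) hΛ
  have htβ0 : 0 ≤ t * β := by positivity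
  have h14 : (t * β) ^ 2 / 2 ≤ t * β * ε / 2 := by
    nlinarith
  have h15 : ε ^ 2 / 4 ≤ t * β * ε / 2 := by
    nlinarith
  have h16 : 0 < ε ^ 2 := by positivity
  nlinarith

end Pool.Agent.N945.CT.REG
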